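import Pool.Agent.Y42.FA.Layer

set_option autoImplicit false

/-! The alternating group on five letters satisfies the standing assumptions. -/

namespace Pool.Agent.Y42.FA

open scoped commutatorElement

open Por

theorem good5 : Good (alternatingGroup (Fin 5)) (Fin 5) 0 1 where
  hoi := by decide
  perf := by
    have := commutator_alternatingGroup_eq_top (α := Fin 5) (by simp)
    exact this
  trans := by
    intro x y
    by_cases hxy : x = y
    · exact ⟨1, by rw [hxy, one_smul]⟩
    · obtain ⟨z, hz⟩ : ∃ z : Fin 5, z ≠ x ∧ z ≠ y := by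
        revert x y; decide
      refine ⟨⟨Equiv.swap x z * Equiv.swap x y, ?_⟩, ?_⟩
      · rw [Equiv.Perm.mem_alternatingGroup, Equiv.Perm.sign_mul, Equiv.Perm.sign_swap hz.1.symm,
          Equiv.Perm.sign_swap hxy]
        rfl
      · change Equiv.swap x z (Equiv.swap x y x) = y
        rw [Equiv.swap_apply_left]
        exact Equiv.swap_apply_of_ne_of_ne (Ne.symm hxy) hz.2.symm
  mover := by
    refine ⟨⟨Equiv.swap 1 2 * Equiv.swap 1 3, ?_⟩, ?_, ?_⟩
    · rw [Equiv.Perm.mem_alternatingGroup]
      decide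
    · change (Equiv.swap (1 : Fin 5) 2 * Equiv.swap (1 : Fin 5) 3 : Equiv.Perm (Fin 5)) 0 = 0
      decide
    · change (Equiv.swap (1 : Fin 5) 2 * Equiv.swap (1 : Fin 5) 3 : Equiv.Perm (Fin 5)) 1 ≠ 1
      decide

theorem exists_ne_one5 : ∃ a : alternatingGroup (Fin 5), a ≠ 1 := by
  obtain ⟨c, _, hc⟩ := good5.mover
  refine ⟨c, ?_⟩
  rintro rfl
  exact hc (one_smul _ _)

instance : FaithfulSMul (alternatingGroup (Fin 5)) (Fin 5) := inferInstance

end Pool.Agent.Y42.FA
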