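import Pool.Agent.Y42.FA.UpTree

set_option autoImplicit false

/-! A group which is the union of a chain of proper subgroups acts on a tree without fixing a
vertex. -/

namespace Pool.Agent.Y42.FA

open SimpleGraph

section Coset

variable {H : Type} [Group H] (K : ℕ → Subgroup H)

/-- vertices of the coset tree -/
abbrev CV : Type := Σ j : ℕ, H ⧸ K j

variable {K}

/-- parent -/
def cup (hK : ∀ j, K j ≤ K (j + 1)) (v : CV K) : CV K :=
  ⟨v.1 + 1, Subgroup.quotientMapOfLE (hK v.1) v.2⟩

theorem cup_iter (hK : ∀ j, K j ≤ K (j + 1)) (a : H) (j m : ℕ) :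
    (cup hK)^[m] (⟨j, (a : H ⧸ K j)⟩ : CV K) = ⟨j + m, (a : H ⧸ K (j + m))⟩ := by
  induction m with
  | zero => rfl
  | succ m ih =>
    rw [Function.iterate_succ_apply', ih]
    rfl

theorem cup_smul (hK : ∀ j, K j ≤ K (j + 1)) (g : H) (v : CV K) :
    cup hK (g • v) = g • cup hK v := by
  obtain ⟨j, c⟩ := v
  induction c using QuotientGroup.induction_on with
  | H a => rfl

theorem exists_tree (hK : ∀ j, K j ≤ K (j + 1)) (hun : ∀ h : H, ∃ j, h ∈ K j)
    (hne : ∀ j, K j ≠ ⊤) :
    ∃ T : SimpleGraph (CV K), T.IsTree ∧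
      (∀ h : H, ∀ x y : CV K, T.Adj x y → T.Adj (h • x) (h • y)) ∧
      (∀ h : H, ∀ x y : CV K, T.Adj x y → ¬ (h • x = y ∧ h • y = x)) ∧
      ¬ ∃ v : CV K, ∀ h : H, h • v = v := by
  have hl : ∀ v : CV K, (cup hK v).1 = v.1 + 1 := fun _ => rfl
  have hmono : Monotone K := monotone_nat_of_le_succ hK
  refine ⟨upGraph (cup hK), ?_, ?_, ?_, ?_⟩
  · refine upGraph_isTree (lvl := fun v => v.1) hl ⟨0, ((1 : H) : H ⧸ K 0)⟩ ?_
    rintro ⟨j, c⟩ ⟨k, d⟩
    induction c using QuotientGroup.induction_on with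
    | H a =>
      induction d using QuotientGroup.induction_on with
      | H b =>
        obtain ⟨l, hl'⟩ := hun (a⁻¹ * b)
        refine ⟨k + l, j + l, ?_⟩
        rw [cup_iter, cup_iter]
        have e : j + (k + l) = k + (j + l) := by omega
        have h1 : (⟨j + (k + l), (a : H ⧸ K (j + (k + l)))⟩ : CV K) =
            ⟨k + (j + l), (a : H ⧸ K (k + (j + l)))⟩ := by rw [e]
        rw [h1]
        congr 1
        rw [QuotientGroup.eq]
        exact hmono (by omega) hl'
  · intro h x y hxy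
    rw [upGraph_adj (lvl := fun v => v.1) hl] at hxy ⊢
    rw [cup_smul, cup_smul]
    rcases hxy with e | e
    · left; rw [e]
    · right; rw [e]
  · rintro h x y hxy ⟨h1, h2⟩
    rw [upGraph_adj (lvl := fun v => v.1) hl] at hxy
    have e1 : y.1 = x.1 := by rw [← h1]; rfl
    rcases hxy with e | e
    · have := hl x
      rw [e] at this
      omega
    · have := hl y
      rw [e] at this
      omega
  · rintro ⟨⟨j, c⟩, hc⟩
    induction c using QuotientGroup.induction_on with
    | H a =>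
      apply hne j
      rw [eq_top_iff]
      intro h _
      have h1 := hc (a * h * a⁻¹)
      have h2 : ((a * h * a⁻¹ * a : H) : H ⧸ K j) = (a : H ⧸ K j) := by
        have h3 : (⟨j, ((a * h * a⁻¹ * a : H) : H ⧸ K j)⟩ : CV K) = ⟨j, (a : H ⧸ K j)⟩ := h1
        exact eq_of_heq (Sigma.mk.inj h3).2
      rw [QuotientGroup.eq] at h2
      have h4 : (a * h * a⁻¹ * a)⁻¹ * a = h⁻¹ := by group
      rw [h4] at h2
      simpa using (K j).inv_mem h2

end Coset

end Pool.Agent.Y42.FA
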