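import Pool.Agent.Y42.FA.Layer

set_option autoImplicit false

/-! Groups of periodic sequences, and the increasing union of the layered groups. -/

namespace Pool.Agent.Y42.FA

open Por

open scoped commutatorElement

section Seq

variable {A : Type} [Group A]

/-- sequences of period `m` -/
def Per (A : Type) [Group A] (m : ℕ) : Subgroup (ℕ → A) where
  carrier := {s | ∀ n, s (n + m) = s n}
  one_mem' := fun _ => rfl
  mul_mem' := by
    intro a b ha hb n
    change a (n + m) * b (n + m) = a n * b n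
    rw [ha, hb]
  inv_mem' := by
    intro a ha n
    change (a (n + m))⁻¹ = (a n)⁻¹
    rw [ha]

theorem mem_Per {m : ℕ} {s : ℕ → A} : s ∈ Per A m ↔ ∀ n, s (n + m) = s n := Iff.rfl

/-- folding -/
def fold (A : Type) [Group A] (m : ℕ) [NeZero m] : (Fin m → A) →* (ℕ → A) where
  toFun f := fun n => f (Fin.ofNat m n)
  map_one' := rfl
  map_mul' _ _ := rfl

theorem per_mod {m : ℕ} {s : ℕ → A} (hs : s ∈ Per A m) (n : ℕ) : s (n % m) = s n := by
  have key : ∀ k r, s (r + m * k) = s r := by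
    intro k
    induction k with
    | zero => intro r; rfl
    | succ k ih =>
      intro r
      rw [Nat.mul_succ, ← add_assoc, hs, ih]
  conv_rhs => rw [← Nat.mod_add_div n m]
  rw [key]

theorem fold_range (m : ℕ) [NeZero m] : (fold A m).range = Per A m := by
  ext s
  constructor
  · rintro ⟨f, rfl⟩ n
    change f _ = f _
    congr 1
    apply Fin.ext
    simp [Fin.ofNat]
  · intro hs
    refine ⟨fun x => s x.1, ?_⟩
    funext n
    change s (n % m) = s n
    exact per_mod hs n

theorem finite_Per [Finite A] (m : ℕ) [NeZero m] : Finite (Per A m) := by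
  rw [← fold_range]
  exact Finite.of_surjective (fold A m).rangeRestrict (fold A m).rangeRestrict_surjective

theorem Per_mono {m k : ℕ} (h : m ∣ k) : Per A m ≤ Per A k := by
  obtain ⟨c, rfl⟩ := h
  intro s hs n
  induction c with
  | zero => rfl
  | succ c ih => rw [Nat.mul_succ, ← add_assoc, hs, ih]

theorem goodB_Per (hA : ⁅(⊤ : Subgroup A), (⊤ : Subgroup A)⁆ = ⊤) (m : ℕ) [NeZero m] :
    GoodB (Per A m) where
  perf := by
    have h1 : ⁅(⊤ : Subgroup (Fin m → A)), (⊤ : Subgroup (Fin m → A))⁆ = ⊤ := by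
      have h := Subgroup.commutator_pi_pi_of_finite (η := Fin m) (Gs := fun _ => A)
        (fun _ => ⊤) (fun _ => ⊤)
      rw [Subgroup.pi_top, hA, Subgroup.pi_top] at h
      exact h
    rw [← fold_range, MonoidHom.range_eq_map, ← Subgroup.map_commutator, h1]
  shift := fun s hs n => by
    have := hs (n + 1)
    simp only [shiftHom_apply]
    rw [← this]
    congr 1
    omega
  shift' := by
    intro s hs
    have hm : m ≠ 0 := NeZero.ne m
    refine ⟨fun n => s (n + m - 1), ?_, ?_⟩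
    · intro n
      change s (n + m + m - 1) = s (n + m - 1)
      rw [← hs (n + m - 1)]
      congr 1
      omega
    · funext n
      change s (n + 1 + m - 1) = s n
      rw [← hs n]
      congr 1
      omega
  all0 := fun a => ⟨fun _ => a, fun _ => rfl, rfl⟩

/-- sequences of some period `2 ^ j` -/
def PerU (A : Type) [Group A] : Subgroup (ℕ → A) where
  carrier := {s | ∃ j : ℕ, s ∈ Per A (2 ^ j)}
  one_mem' := ⟨0, Subgroup.one_mem _⟩
  mul_mem' := by
    rintro a b ⟨j, ha⟩ ⟨k, hb⟩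
    refine ⟨max j k, Subgroup.mul_mem _ (Per_mono (pow_dvd_pow 2 (le_max_left _ _)) ha)
      (Per_mono (pow_dvd_pow 2 (le_max_right _ _)) hb)⟩
  inv_mem' := by
    rintro a ⟨j, ha⟩
    exact ⟨j, Subgroup.inv_mem _ ha⟩

theorem Per_le_PerU (j : ℕ) : Per A (2 ^ j) ≤ PerU A := fun _ hs => ⟨j, hs⟩

theorem goodB_PerU (hA : ⁅(⊤ : Subgroup A), (⊤ : Subgroup A)⁆ = ⊤) : GoodB (PerU A) where
  perf := by
    rintro s ⟨j, hs⟩
    exact Subgroup.commutator_mono (Per_le_PerU j) (Per_le_PerU j) ((goodB_Per hA (2 ^ j)).perf hs)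
  shift := by
    rintro s ⟨j, hs⟩
    exact ⟨j, (goodB_Per hA (2 ^ j)).shift s hs⟩
  shift' := by
    rintro s ⟨j, hs⟩
    obtain ⟨t, ht, h⟩ := (goodB_Per hA (2 ^ j)).shift' s hs
    exact ⟨t, ⟨j, ht⟩, h⟩
  all0 := fun a => ⟨fun _ => a, ⟨0, fun _ => rfl⟩, rfl⟩

/-- a sequence of period `2 ^ (j + 1)` no shift of which has period `2 ^ j` -/
def spike (a : A) (j : ℕ) : ℕ → A := fun n => if 2 ^ (j + 1) ∣ n then a else 1

theorem spike_mem (a : A) (j : ℕ) : spike a j ∈ Per A (2 ^ (j + 1)) := by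
  intro n
  unfold spike
  simp only [Nat.dvd_add_self_right]

theorem spike_shift {a : A} (ha : a ≠ 1) (j k : ℕ) :
    (fun n => spike a j (n + k)) ∉ Per A (2 ^ j) := by
  intro h
  have h1 := h (2 ^ (j + 1) * (k + 1) - k)
  have hpos : 0 < 2 ^ (j + 1) := by positivity
  have hle : k ≤ 2 ^ (j + 1) * (k + 1) := by nlinarith
  have e1 : 2 ^ (j + 1) * (k + 1) - k + k = 2 ^ (j + 1) * (k + 1) := by omega
  have e2 : 2 ^ (j + 1) * (k + 1) - k + 2 ^ j + k = 2 ^ (j + 1) * (k + 1) + 2 ^ j := by omega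
  simp only [spike, e1, e2] at h1
  rw [if_pos (Dvd.intro _ rfl), if_neg] at h1
  · exact ha h1.symm
  · intro h2
    have h3 : 2 ^ (j + 1) ∣ 2 ^ j := (Nat.dvd_add_right (Dvd.intro _ rfl)).1 h2
    have := Nat.le_of_dvd (by positivity) h3
    rw [pow_succ] at this
    have : 0 < 2 ^ j := by positivity
    omega

end Seq

section Nucleus

variable {A X : Type} [Group A] [MulAction A X] [DecidableEq X] {o i : X} {hoi : o ≠ i}

theorem dd_injective : Function.Injective (dd o i hoi : (ℕ → A) → Por A X) := by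
  have key : ∀ (n : ℕ) (s t : ℕ → A), dd o i hoi s = dd o i hoi t → s n = t n := by
    intro n
    induction n with
    | zero =>
      intro s t h
      have := congrArg (fun k : Por A X => rt (sec k i)) h
      simpa [sec_dd_i] using this
    | succ n ih =>
      intro s t h
      have := congrArg (fun k : Por A X => sec k o) h
      simp only [sec_dd_o] at this
      exact ih _ _ this
  intro s t h
  funext n
  exact key n s t h

/-- the nucleus -/
def Nuc (hoi : o ≠ i) (B : Subgroup (ℕ → A)) : Set (Por A X) :=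
  {g | (∃ a : A, g = rho a) ∨ ∃ s ∈ B, g = dd o i hoi s}

theorem Nuc_sec {B : Subgroup (ℕ → A)} (hB : GoodB B) {g : Por A X} (hg : g ∈ Nuc hoi B) (x : X) :
    sec g x ∈ Nuc hoi B := by
  rcases hg with ⟨a, rfl⟩ | ⟨s, hs, rfl⟩
  · left; exact ⟨1, by simp⟩
  · by_cases h1 : x = o
    · subst h1
      right
      exact ⟨_, hB.shift s hs, sec_dd_o s⟩
    · by_cases h2 : x = i
      · subst h2
        left
        exact ⟨_, sec_dd_i s⟩
      · left
        exact ⟨1, by rw [sec_dd_ne s h1 h2, map_one]⟩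

theorem Nuc_secL {B : Subgroup (ℕ → A)} (hB : GoodB B) (v : List X) :
    ∀ {g : Por A X}, g ∈ Nuc hoi B → secL g v ∈ Nuc hoi B := by
  induction v with
  | nil => intro g hg; exact hg
  | cons x w ih => intro g hg; exact ih (Nuc_sec hB hg x)

theorem Nuc_inv {B : Subgroup (ℕ → A)} {g : Por A X} (hg : g ∈ Nuc hoi B) :
    g⁻¹ ∈ Nuc hoi B := by
  rcases hg with ⟨a, rfl⟩ | ⟨s, hs, rfl⟩
  · left; exact ⟨a⁻¹, by rw [map_inv]⟩
  · right; exact ⟨s⁻¹, B.inv_mem hs, by rw [map_inv]⟩

theorem Nuc_mul_sec {B : Subgroup (ℕ → A)} (hB : GoodB B) {g h : Por A X} (hg : g ∈ Nuc hoi B)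
    (hh : h ∈ Nuc hoi B) (x : X) : sec (g * h) x ∈ Nuc hoi B := by
  rcases hg with ⟨a, rfl⟩ | ⟨s, hs, rfl⟩
  · rcases hh with ⟨a', rfl⟩ | ⟨s', hs', rfl⟩
    · rw [sec_mul, sec_rho, sec_rho]
      left; exact ⟨1, by simp⟩
    · rw [sec_mul, sec_rho, one_mul]
      exact Nuc_sec hB (Or.inr ⟨s', hs', rfl⟩) x
  · rcases hh with ⟨a', rfl⟩ | ⟨s', hs', rfl⟩
    · rw [sec_mul, sec_rho, mul_one]
      exact Nuc_sec hB (Or.inr ⟨s, hs, rfl⟩) _
    · rw [← map_mul]
      exact Nuc_sec hB (Or.inr ⟨s * s', B.mul_mem hs hs', rfl⟩) x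

omit [DecidableEq X] in
theorem secL_mul (v : List X) : ∀ g h : Por A X, secL (g * h) v = secL g (h • v) * secL h v := by
  induction v with
  | nil => intro g h; rfl
  | cons x w ih =>
    intro g h
    change secL (sec (g * h) x) w = _
    rw [sec_mul, ih]
    rfl

omit [DecidableEq X] in
theorem secL_one (v : List X) : secL (1 : Por A X) v = 1 := by
  induction v with
  | nil => rfl
  | cons x w ih => exact ih

omit [DecidableEq X] in
theorem secL_append (v w : List X) : ∀ g : Por A X, secL g (v ++ w) = secL (secL g v) w := by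
  induction v with
  | nil => intro g; rfl
  | cons x v ih => intro g; exact ih (sec g x)

/-- contracting elements -/
def Ctr (hoi : o ≠ i) {B : Subgroup (ℕ → A)} (hB : GoodB B) : Subgroup (Por A X) where
  carrier := {g | ∃ n : ℕ, ∀ v : List X, n ≤ v.length → secL g v ∈ Nuc hoi B}
  one_mem' := ⟨0, fun v _ => by
    rw [secL_one]
    exact Or.inl ⟨1, by simp⟩⟩
  mul_mem' := by
    rintro a b ⟨n, hn⟩ ⟨m, hm⟩
    refine ⟨max n m + 1, fun v hv => ?_⟩
    have h1 : secL (a * b) v = secL (secL (a * b) (v.take (max n m))) (v.drop (max n m)) := by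
      rw [← secL_append, List.take_append_drop]
    have hlen : (v.take (max n m)).length = max n m := by
      rw [List.length_take]
      omega
    have hd : v.drop (max n m) ≠ [] := by
      intro h
      have := congrArg List.length h
      rw [List.length_drop] at this
      simp only [List.length_nil] at this
      omega
    rw [h1, secL_mul]
    obtain ⟨x, w, hxw⟩ := List.exists_cons_of_ne_nil hd
    rw [hxw]
    change secL (sec _ x) w ∈ _
    apply Nuc_secL hB
    apply Nuc_mul_sec hB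
    · apply hn
      rw [smul_length, hlen]
      exact le_max_left _ _
    · apply hm
      rw [hlen]
      exact le_max_right _ _
  inv_mem' := by
    rintro a ⟨n, hn⟩
    refine ⟨n, fun v hv => ?_⟩
    have h1 : secL (a * a⁻¹) v = secL a (a⁻¹ • v) * secL a⁻¹ v := secL_mul v a a⁻¹
    rw [mul_inv_cancel, secL_one] at h1
    have h2 : secL a⁻¹ v = (secL a (a⁻¹ • v))⁻¹ := (inv_eq_of_mul_eq_one_right h1.symm).symm
    rw [h2]
    apply Nuc_inv
    apply hn
    rw [smul_length]
    exact hv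

theorem Gam_le_Ctr {B : Subgroup (ℕ → A)} (hB : GoodB B) : Gam o i hoi B ≤ Ctr hoi hB := by
  apply Gam_le
  · intro a
    exact ⟨0, fun v _ => Nuc_secL hB v (Or.inl ⟨a, rfl⟩)⟩
  · intro s hs
    exact ⟨0, fun v _ => Nuc_secL hB v (Or.inr ⟨s, hs, rfl⟩)⟩

theorem secL_dd_replicate (n : ℕ) : ∀ s : ℕ → A, secL (dd o i hoi s) (List.replicate n o) =
    dd o i hoi (fun k => s (k + n)) := by
  induction n with
  | zero => intro s; rfl
  | succ n ih =>
    intro s
    change secL (sec (dd o i hoi s) o) (List.replicate n o) = _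
    rw [sec_dd_o, ih]
    rfl

theorem shift_mem_of_dd_mem {B : Subgroup (ℕ → A)} (hB : GoodB B) {s : ℕ → A}
    (h : dd o i hoi s ∈ Gam o i hoi B) : ∃ n : ℕ, (fun k => s (k + n)) ∈ B := by
  obtain ⟨n, hn⟩ := Gam_le_Ctr hB h
  refine ⟨n, ?_⟩
  have := hn (List.replicate n o) (by simp)
  rw [secL_dd_replicate] at this
  rcases this with ⟨a, ha⟩ | ⟨t, ht, he⟩
  · have h1 : a = 1 := by
      have := congrArg (fun k : Por A X => rt k) ha
      simpa using this.symm
    rw [h1, map_one, ← map_one (dd o i hoi)] at ha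
    rw [dd_injective ha]
    exact B.one_mem
  · rw [dd_injective he]
    exact ht

theorem dd_spike_not_mem {a : A} (ha : a ≠ 1)
    (hA : ⁅(⊤ : Subgroup A), (⊤ : Subgroup A)⁆ = ⊤) (j : ℕ) :
    dd o i hoi (spike a j) ∉ Gam o i hoi (Per A (2 ^ j)) := by
  intro h
  obtain ⟨n, hn⟩ := shift_mem_of_dd_mem (goodB_Per hA (2 ^ j)) h
  exact spike_shift ha j n hn

theorem mem_Gam_PerU {g : Por A X} (hg : g ∈ Gam o i hoi (PerU A)) :
    ∃ j : ℕ, g ∈ Gam o i hoi (Per A (2 ^ j)) := by
  let K : Subgroup (Por A X) :=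
    { carrier := {g | ∃ j : ℕ, g ∈ Gam o i hoi (Per A (2 ^ j))}
      one_mem' := ⟨0, Subgroup.one_mem _⟩
      mul_mem' := by
        rintro a b ⟨j, ha⟩ ⟨k, hb⟩
        exact ⟨max j k, Subgroup.mul_mem _
          (Gam_mono (Per_mono (pow_dvd_pow 2 (le_max_left _ _))) ha)
          (Gam_mono (Per_mono (pow_dvd_pow 2 (le_max_right _ _))) hb)⟩
      inv_mem' := by
        rintro a ⟨j, ha⟩
        exact ⟨j, Subgroup.inv_mem _ ha⟩ }
  have hle : Gam o i hoi (PerU A) ≤ K := by
    apply Gam_le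
    · intro a; exact ⟨0, rho_mem _ a⟩
    · rintro s ⟨j, hs⟩
      exact ⟨j, dd_mem hs⟩
  exact hle hg

end Nucleus

end Pool.Agent.Y42.FA
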