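import Pool.Agent.Y42.FA.HasFA
import Pool.Agent.Y42.FA.Seqs
import Pool.Agent.Y42.FA.Example
import Pool.Agent.Y42.FA.NonFA

set_option autoImplicit false

/-! Two residually finite groups with the same profinite completion, the smaller one having a fixed
vertex on every tree, the larger one not. -/

namespace Pool.Agent.Y42.FA

open SimpleGraph Por

section Fin

variable {A X : Type} [Group A] [MulAction A X] [DecidableEq X] [FaithfulSMul A X] [Finite X]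
  [Nonempty X] {o i : X} {hoi : o ≠ i}

/-- level stabilisers in a subgroup -/
def StIn (Γ : Subgroup (Por A X)) (n : ℕ) : Subgroup Γ := (St n).subgroupOf Γ

theorem StIn_normal (Γ : Subgroup (Por A X)) (n : ℕ) : (StIn Γ n).Normal := by
  have := St_normal (A := A) (X := X) n
  unfold StIn
  infer_instance

theorem StIn_index (Γ : Subgroup (Por A X)) (n : ℕ) : (StIn Γ n).index ≠ 0 := by
  have := St_finiteIndex (A := A) (X := X) n
  have h : ((St n : Subgroup (Por A X)).subgroupOf Γ).FiniteIndex := inferInstance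
  exact h.index_ne_zero

theorem residual (Γ : Subgroup (Por A X)) (g : Γ) (hg : g ≠ 1) :
    ∃ N : Subgroup Γ, N.Normal ∧ N.index ≠ 0 ∧ g ∉ N := by
  have hg' : g.1 ≠ 1 := fun h => hg (Subtype.ext h)
  obtain ⟨v, hv⟩ := exists_moved hg'
  refine ⟨StIn Γ v.length, StIn_normal _ _, StIn_index _ _, ?_⟩
  intro h
  exact hv ((Subgroup.mem_subgroupOf.1 h) v rfl)

theorem csp' (hG : Good A X o i) {B : Subgroup (ℕ → A)} (hB : GoodB B) (hA : ∃ a : A, a ≠ 1)
    (N : Subgroup (Gam o i hoi B)) (hN : N.Normal) (hi : N.index ≠ 0) :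
    ∃ n, StIn (Gam o i hoi B) n ≤ N := by
  have hinf := infinite_Gam (hoi := hoi) hG hB hA
  have hne : N ≠ ⊥ := by
    rintro rfl
    rw [Subgroup.index_bot] at hi
    exact hi (Nat.card_eq_zero_of_infinite)
  obtain ⟨g', hg'⟩ := Subgroup.ne_bot_iff_exists_ne_one.1 hne
  obtain ⟨g, hg, hg1⟩ : ∃ g ∈ N, g ≠ 1 := ⟨g'.1, g'.2, fun h => hg' (Subtype.ext h)⟩
  obtain ⟨n, hn⟩ := csp (hoi := hoi) hG hB (N.map (Gam o i hoi B).subtype)
    ⟨g.1, ⟨g, hg, rfl⟩, fun h => hg1 (Subtype.ext h)⟩ (by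
      rintro γ hγ _ ⟨k, hk, rfl⟩
      exact ⟨⟨γ, hγ⟩ * k * ⟨γ, hγ⟩⁻¹, hN.conj_mem k hk _, rfl⟩)
  refine ⟨n, ?_⟩
  intro h hh
  obtain ⟨k, hk, e⟩ := hn ⟨h.2, Subgroup.mem_subgroupOf.1 hh⟩
  have : k = h := Subtype.ext e
  rwa [← this]

end Fin

/-- the alternating group on five letters -/
abbrev A5 : Type := alternatingGroup (Fin 5)

/-- the smaller group -/
abbrev G0 : Subgroup (Por A5 (Fin 5)) := Gam 0 1 good5.hoi (Per A5 (2 ^ 0))

/-- the larger group -/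
abbrev H0 : Subgroup (Por A5 (Fin 5)) := Gam 0 1 good5.hoi (PerU A5)

theorem G0_le_H0 : G0 ≤ H0 := Gam_mono (Per_le_PerU 0)

theorem completion1 (N : Subgroup G0) (hN : N.Normal) (hi : N.index ≠ 0) :
    ∃ M : Subgroup H0, M.Normal ∧ M.index ≠ 0 ∧ M.comap (Subgroup.inclusion G0_le_H0) ≤ N := by
  obtain ⟨n, hn⟩ := csp' good5 (goodB_Per good5.perf (2 ^ 0)) exists_ne_one5 N hN hi
  refine ⟨StIn H0 n, StIn_normal _ _, StIn_index _ _, ?_⟩
  intro g hg
  exact hn hg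

theorem completion2 (M : Subgroup H0) (hM : M.Normal) (hi : M.index ≠ 0) (h : H0) :
    ∃ g : G0, ∃ m ∈ M, h = Subgroup.inclusion G0_le_H0 g * m := by
  obtain ⟨n, hn⟩ := csp' good5 (goodB_PerU good5.perf) exists_ne_one5 M hM hi
  obtain ⟨g, hg, hgn⟩ := dense (hoi := good5.hoi) good5 (goodB_Per good5.perf (2 ^ 0)) n h.1
  refine ⟨⟨g, hg⟩, (Subgroup.inclusion G0_le_H0 ⟨g, hg⟩)⁻¹ * h, hn ?_, ?_⟩
  · exact Subgroup.mem_subgroupOf.2 hgn
  · rw [mul_inv_cancel_left]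

theorem G0_fixed (V : Type) [MulAction G0 V] (T : SimpleGraph V) (hT : T.IsTree)
    (hP : ∀ g : G0, ∀ x y : V, T.Adj x y → T.Adj (g • x) (g • y))
    (hinv : ∀ g : G0, ∀ x y : V, T.Adj x y → ¬ (g • x = y ∧ g • y = x)) :
    ∃ v : V, ∀ g : G0, g • v = v := by
  have : Finite (Per A5 (2 ^ 0)) := finite_Per _
  exact hasFA good5 (goodB_Per good5.perf (2 ^ 0)) T hT hP hinv

theorem H0_not_fixed : ∃ (V : Type) (_ : MulAction H0 V) (T : SimpleGraph V), T.IsTree ∧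
    (∀ h : H0, ∀ x y : V, T.Adj x y → T.Adj (h • x) (h • y)) ∧
    (∀ h : H0, ∀ x y : V, T.Adj x y → ¬ (h • x = y ∧ h • y = x)) ∧
    ¬ ∃ v : V, ∀ h : H0, h • v = v := by
  obtain ⟨a, ha⟩ := exists_ne_one5
  let K : ℕ → Subgroup H0 := fun j => (Gam 0 1 good5.hoi (Per A5 (2 ^ j))).subgroupOf H0
  have hK : ∀ j, K j ≤ K (j + 1) := by
    intro j h hh
    exact Subgroup.mem_subgroupOf.2 (Gam_mono (Per_mono (pow_dvd_pow 2 (Nat.le_succ j)))
      (Subgroup.mem_subgroupOf.1 hh))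
  obtain ⟨T, h1, h2, h3, h4⟩ := exists_tree (K := K) hK
    (fun h => by
      obtain ⟨j, hj⟩ := mem_Gam_PerU h.2
      exact ⟨j, Subgroup.mem_subgroupOf.2 hj⟩)
    (fun j hj => by
      have hmem : dd 0 1 good5.hoi (spike a j) ∈ H0 := dd_mem ⟨j + 1, spike_mem a j⟩
      have : (⟨_, hmem⟩ : H0) ∈ K j := by rw [hj]; exact Subgroup.mem_top _
      exact dd_spike_not_mem ha good5.perf j (Subgroup.mem_subgroupOf.1 this))
  exact ⟨CV K, inferInstance, T, h1, h2, h3, h4⟩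

end Pool.Agent.Y42.FA
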