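import Pool.Agent.Y42.FA.Portrait

set_option autoImplicit false

/-! Layered groups of portraits: rooted elements together with elements directed along one ray. -/

namespace Pool.Agent.Y42.FA

namespace Por

open scoped commutatorElement

variable {A X : Type} [Group A] [MulAction A X] [DecidableEq X]

/-- portrait with trivial root label and prescribed sections -/
def fam (h : X → Por A X) : Por A X :=
  ⟨fun v => match v with
    | [] => 1
    | x :: w => (h x).p w⟩

@[simp] theorem rt_fam (h : X → Por A X) : rt (fam h) = 1 := rfl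
@[simp] theorem sec_fam (h : X → Por A X) (x : X) : sec (fam h) x = h x := rfl

theorem fam_mem [Finite X] (N : Subgroup (Por A X)) (h : X → Por A X)
    (hN : ∀ x, inj x (h x) ∈ N) : fam h ∈ N := by
  classical
  have := Fintype.ofFinite X
  have key : ∀ S : Finset X, fam (fun x => if x ∈ S then h x else 1) ∈ N := by
    intro S
    induction S using Finset.induction_on with
    | empty =>
      have : fam (fun x => if x ∈ (∅ : Finset X) then h x else 1) = (1 : Por A X) := by
        apply ext_sec
        · rfl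
        · intro x; simp
      rw [this]
      exact N.one_mem
    | insert a S ha ih =>
      have : fam (fun x => if x ∈ insert a S then h x else 1) =
          inj a (h a) * fam (fun x => if x ∈ S then h x else 1) := by
        apply ext_sec
        · simp
        · intro x
          simp only [sec_mul, sec_fam, rt_fam, one_smul, sec_inj, Finset.mem_insert]
          by_cases hx : x = a
          · subst hx
            simp [ha]
          · simp [hx]
      rw [this]
      exact N.mul_mem (hN a) ih
  have := key Finset.univ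
  simpa using this

theorem eq_rho_fam (g : Por A X) : g = rho (rt g) * fam (fun x => sec g x) := by
  apply ext_sec
  · simp
  · intro x
    simp

/-- the shift of sequences -/
def shiftHom : (ℕ → A) →* (ℕ → A) where
  toFun s := fun n => s (n + 1)
  map_one' := rfl
  map_mul' _ _ := rfl

@[simp] theorem shiftHom_apply (s : ℕ → A) (n : ℕ) : shiftHom s n = s (n + 1) := rfl

/-- labels of the portrait directed along the ray `o o o …` -/
def ddp (o i : X) : List X → (ℕ → A) → A
  | [], _ => 1
  | x :: w, s => if x = o then ddp o i w (fun n => s (n + 1))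
      else if x = i ∧ w = [] then s 0 else 1

omit [MulAction A X] in
theorem ddp_one (o i : X) : ∀ v : List X, ddp o i v (1 : ℕ → A) = 1 := by
  intro v
  induction v with
  | nil => rfl
  | cons x w ih =>
    unfold ddp
    by_cases h : x = o
    · rw [if_pos h]; exact ih
    · rw [if_neg h]
      split_ifs <;> rfl

/-- portraits directed along the ray `o o o …` -/
def dd (o i : X) (hoi : o ≠ i) : (ℕ → A) →* Por A X where
  toFun s := ⟨fun v => ddp o i v s⟩
  map_one' := by
    ext v
    exact ddp_one o i v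
  map_mul' s t := by
    ext v
    induction v generalizing s t with
    | nil => change (1 : A) = 1 * 1; simp
    | cons x w ih =>
      change ddp o i (x :: w) (s * t) = ddp o i (act (x :: w) _) s * ddp o i (x :: w) t
      have hact : act (x :: w) (fun v => ddp o i v t) =
          x :: act w (fun v => ddp o i (x :: v) t) := by
        change ((1 : A) • x) :: _ = _
        rw [one_smul]
      rw [hact]
      by_cases h : x = o
      · subst h
        simp only [ddp, if_true]
        have := ih (fun n => s (n + 1)) (fun n => t (n + 1))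
        exact this
      · by_cases h2 : x = i
        · subst h2
          simp only [ddp, if_neg h, true_and]
          cases w with
          | nil => simp [act]
          | cons y w => simp [act]
        · simp [ddp, h, h2]

variable {o i : X} {hoi : o ≠ i}

@[simp] theorem rt_dd (s : ℕ → A) : rt (dd o i hoi s) = 1 := rfl

theorem sec_dd_o (s : ℕ → A) : sec (dd o i hoi s) o = dd o i hoi (shiftHom s) := by
  ext v
  change ddp o i (o :: v) s = ddp o i v _
  simp only [ddp, if_true]
  rfl

theorem sec_dd_i (s : ℕ → A) : sec (dd o i hoi s) i = rho (s 0) := by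
  ext v
  change ddp o i (i :: v) s = _
  simp only [ddp, if_neg (Ne.symm hoi), true_and]
  cases v with
  | nil => rfl
  | cons y w => rfl

theorem sec_dd_ne (s : ℕ → A) {x : X} (h1 : x ≠ o) (h2 : x ≠ i) :
    sec (dd o i hoi s) x = 1 := by
  ext v
  change ddp o i (x :: v) s = _
  simp [ddp, h1, h2, one_p]

theorem sec_commutator {g h : Por A X} (hg : rt g = 1) (hh : rt h = 1) (x : X) :
    sec ⁅g, h⁆ x = ⁅sec g x, sec h x⁆ := by
  rw [commutatorElement_def, commutatorElement_def]
  simp [sec_inv, hg, hh]

/-- the standing assumptions -/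
structure Good (A X : Type) [Group A] [MulAction A X] (o i : X) : Prop where
  hoi : o ≠ i
  perf : ⁅(⊤ : Subgroup A), (⊤ : Subgroup A)⁆ = ⊤
  trans : ∀ x y : X, ∃ a : A, a • x = y
  mover : ∃ c : A, c • o = o ∧ c • i ≠ i

/-- the assumptions on the group of sequences -/
structure GoodB (B : Subgroup (ℕ → A)) : Prop where
  perf : B ≤ ⁅B, B⁆
  shift : ∀ s ∈ B, shiftHom s ∈ B
  shift' : ∀ s ∈ B, ∃ t ∈ B, shiftHom t = s
  all0 : ∀ a : A, ∃ s ∈ B, s 0 = a

/-- the layered group -/
def Gam (o i : X) (hoi : o ≠ i) (B : Subgroup (ℕ → A)) : Subgroup (Por A X) :=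
  (rho : A →* Por A X).range ⊔ B.map (dd o i hoi)

theorem rho_mem (B : Subgroup (ℕ → A)) (a : A) : (rho a : Por A X) ∈ Gam o i hoi B :=
  Subgroup.mem_sup_left ⟨a, rfl⟩

theorem dd_mem {B : Subgroup (ℕ → A)} {s : ℕ → A} (hs : s ∈ B) :
    dd o i hoi s ∈ Gam o i hoi B :=
  Subgroup.mem_sup_right ⟨s, hs, rfl⟩

theorem Gam_le {B : Subgroup (ℕ → A)} {K : Subgroup (Por A X)} (h1 : ∀ a, (rho a : Por A X) ∈ K)
    (h2 : ∀ s ∈ B, dd o i hoi s ∈ K) : Gam o i hoi B ≤ K := by
  refine sup_le ?_ ?_
  · rintro _ ⟨a, rfl⟩; exact h1 a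
  · rintro _ ⟨s, hs, rfl⟩; exact h2 s hs

theorem Gam_mono {B C : Subgroup (ℕ → A)} (h : B ≤ C) : Gam o i hoi B ≤ Gam o i hoi C :=
  Gam_le (fun a => rho_mem C a) (fun _ hs => dd_mem (h hs))

theorem comm_key {c : A} (hco : c • o = o) (hci : c • i ≠ i) (s t : ℕ → A) :
    ⁅dd o i hoi s, rho c * dd o i hoi t * (rho c)⁻¹⁆ = inj o (dd o i hoi (shiftHom ⁅s, t⁆)) := by
  have hco' : c⁻¹ • o = o := by rw [inv_smul_eq_iff, hco]
  have hci' : c⁻¹ • i ≠ i := by
    intro h
    rw [inv_smul_eq_iff] at h
    exact hci h.symm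
  have hio' : c⁻¹ • i ≠ o := by
    intro h
    rw [inv_smul_eq_iff, hco] at h
    exact hoi h.symm
  have hrt : rt (rho c * dd o i hoi t * (rho c)⁻¹ : Por A X) = 1 := by simp
  have hsec : ∀ y, sec (rho c * dd o i hoi t * (rho c)⁻¹ : Por A X) y =
      sec (dd o i hoi t) (c⁻¹ • y) := by
    intro y
    simp [sec_inv]
  apply ext_sec
  · rw [rt_inj, commutatorElement_def]
    simp
  · intro y
    rw [sec_commutator (rt_dd s) hrt, hsec, sec_inj]
    by_cases h1 : y = o
    · subst h1
      rw [if_pos rfl, hco', sec_dd_o, sec_dd_o, ← map_commutatorElement, ← map_commutatorElement]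
    · rw [if_neg h1]
      by_cases h2 : y = i
      · subst h2
        rw [sec_dd_ne t hio' hci', commutatorElement_one_right]
      · rw [sec_dd_ne s h1 h2, commutatorElement_one_left]

theorem inj_mem (hG : Good A X o i) {B : Subgroup (ℕ → A)} (hB : GoodB B) :
    ∀ g ∈ Gam o i hoi B, ∀ x : X, inj x g ∈ Gam o i hoi B := by
  obtain ⟨c, hco, hci⟩ := hG.mover
  have s1 : ∀ b ∈ B, inj o (dd o i hoi b) ∈ Gam o i hoi B := by
    intro b hb
    obtain ⟨b', hb', rfl⟩ := hB.shift' b hb
    have hle : ⁅B, B⁆ ≤ (Gam o i hoi B).comap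
        (((inj o : Por A X →* Por A X).comp (dd o i hoi)).comp shiftHom) := by
      rw [Subgroup.commutator_le]
      intro s hs t ht
      change inj o (dd o i hoi (shiftHom ⁅s, t⁆)) ∈ Gam o i hoi B
      rw [← comm_key hco hci]
      have m1 := dd_mem (o := o) (i := i) (hoi := hoi) hs
      have m2 := dd_mem (o := o) (i := i) (hoi := hoi) ht
      have m3 : (rho c : Por A X) ∈ Gam o i hoi B := rho_mem B c
      have m4 : rho c * dd o i hoi t * (rho c)⁻¹ ∈ Gam o i hoi B :=
        Subgroup.mul_mem _ (Subgroup.mul_mem _ m3 m2) (Subgroup.inv_mem _ m3)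
      rw [commutatorElement_def]
      exact Subgroup.mul_mem _ (Subgroup.mul_mem _ (Subgroup.mul_mem _ m1 m4)
        (Subgroup.inv_mem _ m1)) (Subgroup.inv_mem _ m4)
    exact hle (hB.perf hb')
  have s2 : ∀ a : A, inj i (rho a) ∈ Gam o i hoi B := by
    intro a
    obtain ⟨s, hs, rfl⟩ := hB.all0 a
    have : inj i (rho (s 0)) = (inj o (dd o i hoi (shiftHom s)))⁻¹ * dd o i hoi s := by
      rw [eq_inv_mul_iff_mul_eq]
      apply ext_sec
      · simp
      · intro x
        simp only [sec_mul, rt_inj, one_smul, sec_inj]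
        by_cases h1 : x = o
        · subst h1
          simp [hoi, sec_dd_o]
        · by_cases h2 : x = i
          · subst h2
            simp [h1, sec_dd_i]
          · simp [h1, h2, sec_dd_ne s h1 h2]
    rw [this]
    exact Subgroup.mul_mem _ (Subgroup.inv_mem _ (s1 _ (hB.shift s hs))) (dd_mem hs)
  have conj : ∀ (x y : X) (g : Por A X), inj x g ∈ Gam o i hoi B → inj y g ∈ Gam o i hoi B := by
    intro x y g hg
    obtain ⟨a, ha⟩ := hG.trans x y
    rw [← ha, ← rho_conj_inj]
    exact Subgroup.mul_mem _ (Subgroup.mul_mem _ (rho_mem B a) hg)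
      (Subgroup.inv_mem _ (rho_mem B a))
  intro g hg x
  have hle : Gam o i hoi B ≤ (Gam o i hoi B).comap (inj x) := by
    apply Gam_le
    · intro a
      exact conj i x _ (s2 a)
    · intro s hs
      exact conj o x _ (s1 s hs)
  exact hle hg

theorem injL_mem (hG : Good A X o i) {B : Subgroup (ℕ → A)} (hB : GoodB B) (v : List X) :
    ∀ g ∈ Gam o i hoi B, injL v g ∈ Gam o i hoi B := by
  induction v with
  | nil => intro g hg; exact hg
  | cons x w ih => intro g hg; exact inj_mem hG hB _ (ih g hg) x

theorem perfect_Gam (hG : Good A X o i) {B : Subgroup (ℕ → A)} (hB : GoodB B) :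
    Gam o i hoi B ≤ ⁅Gam o i hoi B, Gam o i hoi B⁆ := by
  refine sup_le ?_ ?_
  · have h1 : (rho : A →* Por A X).range =
        ⁅(rho : A →* Por A X).range, (rho : A →* Por A X).range⁆ := by
      rw [MonoidHom.range_eq_map, ← Subgroup.map_commutator, hG.perf]
    calc (rho : A →* Por A X).range
        = ⁅(rho : A →* Por A X).range, (rho : A →* Por A X).range⁆ := h1
      _ ≤ _ := Subgroup.commutator_mono le_sup_left le_sup_left
  · calc B.map (dd o i hoi) ≤ (⁅B, B⁆).map (dd o i hoi) := Subgroup.map_mono hB.perf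
      _ = ⁅B.map (dd o i hoi), B.map (dd o i hoi)⁆ := Subgroup.map_commutator _ _ _
      _ ≤ _ := Subgroup.commutator_mono le_sup_right le_sup_right

theorem sec_mem {B : Subgroup (ℕ → A)} (hB : GoodB B) :
    ∀ g ∈ Gam o i hoi B, ∀ x : X, sec g x ∈ Gam o i hoi B := by
  let S : Subgroup (Por A X) :=
    { carrier := {g | ∀ x : X, sec g x ∈ Gam o i hoi B}
      one_mem' := fun x => by simp
      mul_mem' := by
        intro a b ha hb x
        rw [sec_mul]
        exact Subgroup.mul_mem _ (ha _) (hb _)
      inv_mem' := by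
        intro a ha x
        rw [sec_inv]
        exact Subgroup.inv_mem _ (ha _) }
  have hle : Gam o i hoi B ≤ S := by
    apply Gam_le
    · intro a x
      rw [sec_rho]
      exact Subgroup.one_mem _
    · intro s hs x
      by_cases h1 : x = o
      · subst h1
        rw [sec_dd_o]
        exact dd_mem (hB.shift s hs)
      · by_cases h2 : x = i
        · subst h2
          rw [sec_dd_i]
          exact rho_mem B _
        · rw [sec_dd_ne s h1 h2]
          exact Subgroup.one_mem _
  exact fun g hg => hle hg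

theorem secL_mem {B : Subgroup (ℕ → A)} (hB : GoodB B) (v : List X) :
    ∀ g ∈ Gam o i hoi B, secL g v ∈ Gam o i hoi B := by
  induction v with
  | nil => intro g hg; exact hg
  | cons x w ih => intro g hg; exact ih _ (sec_mem hB g hg x)

theorem trans_words (hG : Good A X o i) {B : Subgroup (ℕ → A)} (hB : GoodB B) (v : List X) :
    ∀ w : List X, v.length = w.length → ∃ g ∈ Gam o i hoi B, g • v = w := by
  induction v with
  | nil =>
    intro w hw
    refine ⟨1, Subgroup.one_mem _, ?_⟩
    cases w with
    | nil => rfl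
    | cons => simp at hw
  | cons x v ih =>
    intro w hw
    cases w with
    | nil => simp at hw
    | cons y w =>
      obtain ⟨g, hg, hgv⟩ := ih w (by simpa using hw)
      obtain ⟨a, ha⟩ := hG.trans x y
      refine ⟨rho a * inj x g, Subgroup.mul_mem _ (rho_mem B a) (inj_mem hG hB g hg x), ?_⟩
      rw [mul_smul, smul_cons, smul_cons]
      simp only [rt_inj, one_smul, sec_inj_self, rt_rho, sec_rho]
      rw [ha, hgv]

/-- elements fixing level `n` are products of elements placed at the words of length `n` -/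
theorem St_le [FaithfulSMul A X] [Finite X] [Nonempty X] {B : Subgroup (ℕ → A)} (hB : GoodB B) :
    ∀ (n : ℕ) (N : Subgroup (Por A X)),
      (∀ w : List X, w.length = n → ∀ h ∈ Gam o i hoi B, injL w h ∈ N) →
      Gam o i hoi B ⊓ St n ≤ N := by
  intro n
  induction n with
  | zero =>
    intro N hN g hg
    exact hN [] rfl g hg.1
  | succ n ih =>
    intro N hN g hg
    obtain ⟨h0, h1⟩ := mem_St_succ.1 hg.2
    rw [eq_rho_fam g, h0, map_one, one_mul]
    apply fam_mem
    intro x
    have := ih (N.comap (inj x)) (fun w hw h hh => by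
      change inj x (injL w h) ∈ N
      exact hN (x :: w) (by simp [hw]) h hh)
    exact this ⟨sec_mem hB g hg.1 x, h1 x⟩

/-- the congruence subgroup property -/
theorem csp [FaithfulSMul A X] [Finite X] [Nonempty X] (hG : Good A X o i)
    {B : Subgroup (ℕ → A)} (hB : GoodB B) (N : Subgroup (Por A X))
    (hne : ∃ g ∈ N, g ≠ 1)
    (hnorm : ∀ γ ∈ Gam o i hoi B, ∀ g ∈ N, γ * g * γ⁻¹ ∈ N) :
    ∃ n, Gam o i hoi B ⊓ St n ≤ N := by
  obtain ⟨g, hgN, hg1⟩ := hne
  obtain ⟨v, hv⟩ := exists_moved hg1
  have h1 : Gam o i hoi B ≤ N.comap (injL v) := by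
    refine (perfect_Gam (hoi := hoi) hG hB).trans ?_
    rw [Subgroup.commutator_le]
    intro x hx y hy
    change injL v ⁅x, y⁆ ∈ N
    set a := injL v x with ha
    set b := injL v y with hb
    have haG : a ∈ Gam o i hoi B := injL_mem hG hB v x hx
    have hbG : b ∈ Gam o i hoi B := injL_mem hG hB v y hy
    have hc : Commute (g * a⁻¹ * g⁻¹) b := by
      have e : g * a⁻¹ * g⁻¹ = injL (g • v) (secL g v * x⁻¹ * (secL g v)⁻¹) := by
        rw [ha, ← map_inv, conj_injL]
      rw [e]
      exact injL_commute _ _ (smul_length g v) hv _ _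
    have hag : a * (g * a⁻¹ * g⁻¹) ∈ N := by
      have : a * (g * a⁻¹ * g⁻¹) = (a * g * a⁻¹) * g⁻¹ := by group
      rw [this]
      exact N.mul_mem (hnorm a haG g hgN) (N.inv_mem hgN)
    set u := g * a⁻¹ * g⁻¹ with hu
    have hcomm : injL v ⁅x, y⁆ = (a * u) * (b * (a * u)⁻¹ * b⁻¹) := by
      rw [map_commutatorElement, commutatorElement_def]
      have : u * b = b * u := hc
      calc a * b * a⁻¹ * b⁻¹ = a * (b * u) * u⁻¹ * a⁻¹ * b⁻¹ := by group
        _ = a * (u * b) * u⁻¹ * a⁻¹ * b⁻¹ := by rw [this]
        _ = (a * u) * (b * (a * u)⁻¹ * b⁻¹) := by group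
    rw [hcomm]
    exact N.mul_mem hag (hnorm b hbG _ (N.inv_mem hag))
  refine ⟨v.length, St_le hB v.length N ?_⟩
  intro w hw h hh
  obtain ⟨γ, hγ, hγv⟩ := trans_words (hoi := hoi) hG hB v w hw.symm
  have hs : secL γ v ∈ Gam o i hoi B := secL_mem hB v γ hγ
  have hk : (secL γ v)⁻¹ * h * secL γ v ∈ Gam o i hoi B :=
    Subgroup.mul_mem _ (Subgroup.mul_mem _ (Subgroup.inv_mem _ hs) hh) hs
  have := hnorm γ hγ _ (h1 hk)
  rw [conj_injL, hγv] at this
  have e : secL γ v * ((secL γ v)⁻¹ * h * secL γ v) * (secL γ v)⁻¹ = h := by group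
  rw [e] at this
  exact this

/-- density in the group of all portraits -/
theorem dense [FaithfulSMul A X] [Finite X] [Nonempty X] (hG : Good A X o i)
    {B : Subgroup (ℕ → A)} (hB : GoodB B) :
    ∀ (n : ℕ) (h : Por A X), ∃ g ∈ Gam o i hoi B, g⁻¹ * h ∈ (St n : Subgroup (Por A X)) := by
  intro n
  induction n with
  | zero =>
    intro h
    refine ⟨1, Subgroup.one_mem _, ?_⟩
    intro v hv
    rw [List.length_eq_zero_iff.1 hv]
    rfl
  | succ n ih =>
    intro h
    choose g hg hgs using fun x => ih (sec h x)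
    refine ⟨rho (rt h) * fam g, Subgroup.mul_mem _ (rho_mem B _)
      (fam_mem _ _ fun x => inj_mem hG hB _ (hg x) x), ?_⟩
    rw [mem_St_succ]
    constructor
    · simp
    · intro x
      have : sec ((rho (rt h) * fam g)⁻¹ * h) x = (g x)⁻¹ * sec h x := by
        simp [sec_inv]
      rw [this]
      exact hgs x

/-- the layered group is infinite -/
theorem infinite_Gam (hG : Good A X o i) {B : Subgroup (ℕ → A)} (hB : GoodB B)
    (hA : ∃ a : A, a ≠ 1) : Infinite (Gam o i hoi B) := by
  by_contra hcon
  rw [not_infinite_iff_finite] at hcon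
  let f : Gam o i hoi B → Gam o i hoi B := fun g => ⟨inj o g.1, inj_mem hG hB g.1 g.2 o⟩
  have hf : Function.Injective f := by
    intro g h e
    exact Subtype.ext (inj_injective o (congrArg Subtype.val e))
  obtain ⟨a, ha⟩ := hA
  obtain ⟨g, hg⟩ := (Finite.injective_iff_surjective.1 hf) ⟨rho a, rho_mem B a⟩
  have := congrArg (fun k : Gam o i hoi B => rt k.1) hg
  exact ha this.symm

end Por

end Pool.Agent.Y42.FA
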