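import Pool.Agent.Y42.FA.TreeGeo
import Pool.Agent.Y42.FA.Layer

set_option autoImplicit false

/-! Layered groups generated by two finite groups fix a vertex of every tree they act on. -/

namespace Pool.Agent.Y42.FA

open SimpleGraph Por

section General

variable {V : Type*} {T : SimpleGraph V} {P : Type*} [Group P] [MulAction P V]

theorem finite_subgroup_fix (hT : T.IsTree)
    (hP : ∀ g : P, ∀ x y : V, T.Adj x y → T.Adj (g • x) (g • y))
    (hinv : ∀ g : P, ∀ x y : V, T.Adj x y → ¬ (g • x = y ∧ g • y = x))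
    (K : Subgroup P) [Finite K] : (Fx P V K).Nonempty := by
  obtain ⟨v, hv⟩ := finite_fix (P := K) hT (fun g x y h => hP g.1 x y h)
    (fun g x y h => hinv g.1 x y h)
  exact ⟨v, fun g hg => hv ⟨g, hg⟩⟩

theorem fx_sup (K L : Subgroup P) : Fx P V K ∩ Fx P V L ⊆ Fx P V (K ⊔ L) := by
  rintro v ⟨h1, h2⟩
  have : K ⊔ L ≤ MulAction.stabilizer P v :=
    sup_le (fun g hg => h1 g hg) (fun g hg => h2 g hg)
  exact fun g hg => this hg

theorem fx_commute {K L : Subgroup P} (h : ∀ k ∈ K, ∀ l ∈ L, k * l = l * k) :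
    ∀ g ∈ L, ∀ v ∈ Fx P V K, g • v ∈ Fx P V K := by
  intro g hg v hv k hk
  rw [← mul_smul, h k hk g hg, mul_smul, hv k hk]

end General

theorem finite_range' {G H : Type*} [Group G] [Group H] [Finite G] (f : G →* H) :
    Finite f.range :=
  Finite.of_surjective f.rangeRestrict f.rangeRestrict_surjective

section Layered

variable {A X : Type} [Group A] [MulAction A X] [DecidableEq X] {o i : X} {hoi : o ≠ i}

/-- placing at a letter, as an endomorphism of the layered group -/
def injP (hG : Good A X o i) {B : Subgroup (ℕ → A)} (hB : GoodB B) (x : X) :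
    Gam o i hoi B →* Gam o i hoi B where
  toFun g := ⟨inj x g.1, inj_mem hG hB g.1 g.2 x⟩
  map_one' := Subtype.ext (map_one _)
  map_mul' g h := Subtype.ext (map_mul _ _ _)

/-- the rooted elements -/
def rhoP (hoi : o ≠ i) (B : Subgroup (ℕ → A)) : A →* Gam o i hoi B where
  toFun a := ⟨rho a, rho_mem B a⟩
  map_one' := Subtype.ext (map_one _)
  map_mul' g h := Subtype.ext (map_mul _ _ _)

/-- the directed elements -/
def ddP (hoi : o ≠ i) (B : Subgroup (ℕ → A)) : B →* Gam o i hoi B where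
  toFun s := ⟨dd o i hoi s.1, dd_mem s.2⟩
  map_one' := Subtype.ext (map_one _)
  map_mul' g h := Subtype.ext (map_mul _ _ _)

theorem rhoP_sup_ddP (B : Subgroup (ℕ → A)) : (rhoP hoi B).range ⊔ (ddP hoi B).range = ⊤ := by
  rw [eq_top_iff]
  intro g _
  have hle : Gam o i hoi B ≤ ((rhoP hoi B).range ⊔ (ddP hoi B).range).map
      (Gam o i hoi B).subtype := by
    apply Gam_le
    · intro a
      exact ⟨rhoP hoi B a, Subgroup.mem_sup_left ⟨a, rfl⟩, rfl⟩
    · intro s hs
      exact ⟨ddP hoi B ⟨s, hs⟩, Subgroup.mem_sup_right ⟨⟨s, hs⟩, rfl⟩, rfl⟩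
  obtain ⟨g', hg', e⟩ := hle g.2
  have : g' = g := Subtype.ext e
  rwa [← this]

theorem hasFA [Finite A] [Finite X] (hG : Good A X o i) {B : Subgroup (ℕ → A)}
    (hB : GoodB B) [Finite B] {V : Type*} [MulAction (Gam o i hoi B) V] (T : SimpleGraph V)
    (hT : T.IsTree)
    (hP : ∀ g : Gam o i hoi B, ∀ x y : V, T.Adj x y → T.Adj (g • x) (g • y))
    (hinv : ∀ g : Gam o i hoi B, ∀ x y : V, T.Adj x y → ¬ (g • x = y ∧ g • y = x)) :
    ∃ v : V, ∀ g : Gam o i hoi B, g • v = v := by
  classical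
  haveI := Fintype.ofFinite X
  let G : X → Subgroup (Gam o i hoi B) := fun x => (injP (hoi := hoi) hG hB x).range
  have hcomm : ∀ x y : X, x ≠ y → ∀ k ∈ G x, ∀ l ∈ G y, k * l = l * k := by
    rintro x y hxy _ ⟨k, rfl⟩ _ ⟨l, rfl⟩
    exact Subtype.ext (inj_commute hxy k.1 l.1)
  -- finite pieces
  have hfix1 : ∀ x, (Fx (Gam o i hoi B) V ((rhoP hoi B).range.map (injP hG hB x))).Nonempty := by
    intro x
    haveI : Finite ((rhoP hoi B).range.map (injP (hoi := hoi) hG hB x)) := by
      rw [← MonoidHom.range_comp]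
      exact finite_range' _
    exact finite_subgroup_fix hT hP hinv _
  have hfix2 : ∀ x, (Fx (Gam o i hoi B) V ((ddP hoi B).range.map (injP hG hB x))).Nonempty := by
    intro x
    haveI : Finite ((ddP hoi B).range.map (injP (hoi := hoi) hG hB x)) := by
      rw [← MonoidHom.range_comp]
      exact finite_range' _
    exact finite_subgroup_fix hT hP hinv _
  have hGsup : ∀ x, G x = (rhoP hoi B).range.map (injP hG hB x) ⊔
      (ddP hoi B).range.map (injP hG hB x) := by
    intro x
    rw [← Subgroup.map_sup, rhoP_sup_ddP, ← MonoidHom.range_eq_map]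
  -- one of the factors fixes a vertex
  have stepA : ∃ x, (Fx (Gam o i hoi B) V (G x)).Nonempty := by
    by_cases h : (Fx (Gam o i hoi B) V ((rhoP hoi B).range.map (injP hG hB o)) ∩
        Fx (Gam o i hoi B) V ((ddP hoi B).range.map (injP hG hB o))).Nonempty
    · obtain ⟨v, hv⟩ := h
      refine ⟨o, v, ?_⟩
      rw [hGsup]
      exact fx_sup _ _ hv
    · refine ⟨i, fix_of_disjoint hT hP (G i) (conv_fx hT hP _) (conv_fx hT hP _) (hfix1 o)
        (hfix2 o) ?_ ?_ h⟩
      · apply fx_commute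
        intro k hk l hl
        refine hcomm o i hoi k ?_ l hl
        exact Subgroup.map_le_range _ _ hk
      · apply fx_commute
        intro k hk l hl
        refine hcomm o i hoi k ?_ l hl
        exact Subgroup.map_le_range _ _ hk
  -- conjugation
  have hconj : ∀ (a : A) (x : X) (v : V), v ∈ Fx (Gam o i hoi B) V (G x) → rhoP hoi B a • v ∈ Fx (Gam o i hoi B) V (G (a • x)) := by
    rintro a x v hv _ ⟨g, rfl⟩
    have e : injP hG hB (a • x) g = rhoP hoi B a * injP hG hB x g * (rhoP hoi B a)⁻¹ :=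
      Subtype.ext (rho_conj_inj a x g.1).symm
    rw [e, mul_smul, inv_smul_smul, mul_smul]
    exact congrArg _ (hv _ ⟨g, rfl⟩)
  have stepB : ∀ x, (Fx (Gam o i hoi B) V (G x)).Nonempty := by
    obtain ⟨x, v, hv⟩ := stepA
    intro y
    obtain ⟨a, ha⟩ := hG.trans x y
    exact ⟨_, ha ▸ hconj a x v hv⟩
  -- all the factors together
  have stepC : ∀ S : Finset X, Conv T {v : V | ∀ x ∈ S, v ∈ Fx (Gam o i hoi B) V (G x)} ∧
      {v : V | ∀ x ∈ S, v ∈ Fx (Gam o i hoi B) V (G x)}.Nonempty := by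
    intro S
    induction S using Finset.induction_on with
    | empty =>
      obtain ⟨v0⟩ := hT.connected.nonempty
      refine ⟨?_, v0, by simp⟩
      intro x _ y _ z _ _
      simp
    | insert a S ha ih =>
      have e : {v : V | ∀ x ∈ insert a S, v ∈ Fx (Gam o i hoi B) V (G x)} =
          {v : V | ∀ x ∈ S, v ∈ Fx (Gam o i hoi B) V (G x)} ∩ Fx (Gam o i hoi B) V (G a) := by
        ext v
        simp only [Finset.mem_insert, forall_eq_or_imp, Set.mem_ofPred_eq, Set.mem_inter_iff]
        exact and_comm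
      rw [e]
      refine ⟨conv_inter ih.1 (conv_fx hT hP _), ?_⟩
      obtain ⟨v, hv⟩ := stepB a
      refine fix_in_conv hT hP (G a) hv ih.1 ih.2 ?_
      intro g hg w hw x hx
      have hxa : x ≠ a := by rintro rfl; exact ha hx
      exact fx_commute (fun k hk l hl => hcomm x a hxa k hk l hl) g hg w (hw x hx)
  obtain ⟨hconv, hne⟩ := stepC Finset.univ
  -- the rooted elements
  haveI : Finite (rhoP hoi B).range := finite_range' _
  obtain ⟨w, hw⟩ := finite_subgroup_fix hT hP hinv (rhoP hoi B).range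
  obtain ⟨v, hv1, hv2⟩ := fix_in_conv hT hP _ hw hconv hne (by
    rintro _ ⟨a, rfl⟩ u hu y _
    have := hconj a (a⁻¹ • y) u (hu _ (Finset.mem_univ _))
    rwa [smul_inv_smul] at this)
  refine ⟨v, fun g => ?_⟩
  have hN : fam (fun x => sec g.1 x) ∈ (MulAction.stabilizer (Gam o i hoi B) v).map (Gam o i hoi B).subtype := by
    apply fam_mem
    intro x
    refine ⟨injP hG hB x ⟨sec g.1 x, sec_mem hB g.1 g.2 x⟩, ?_, rfl⟩
    exact hv1 x (Finset.mem_univ _) _ ⟨_, rfl⟩
  obtain ⟨f, hf, hfe⟩ := hN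
  have e : g = rhoP hoi B (rt g.1) * f := by
    apply Subtype.ext
    change g.1 = rho (rt g.1) * f.1
    rw [show f.1 = fam (fun x => sec g.1 x) from hfe]
    exact eq_rho_fam g.1
  rw [e, mul_smul, show f • v = v from hf]
  exact hv2 _ ⟨_, rfl⟩

end Layered

end Pool.Agent.Y42.FA
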