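import Mathlib

set_option autoImplicit false

/-! Portraits of automorphisms of the rooted tree of words over an alphabet `X`, with local
permutations in a group `A` acting on `X`. -/

namespace Pool.Agent.Y42.FA

/-- a portrait: a label in `A` at every word -/
@[ext]
structure Por (A X : Type) where
  p : List X → A

namespace Por

variable {A X : Type} [Group A] [MulAction A X]

/-- action of a portrait on words -/
def act : List X → (List X → A) → List X
  | [], _ => []
  | x :: w, q => (q [] • x) :: act w (fun v => q (x :: v))

/-- inverse action -/
def iact : List X → (List X → A) → List X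
  | [], _ => []
  | y :: w, q => ((q [])⁻¹ • y) :: iact w (fun v => q (((q [])⁻¹ • y) :: v))

theorem iact_act (v : List X) : ∀ q : List X → A, iact (act v q) q = v := by
  induction v with
  | nil => intro q; rfl
  | cons x w ih =>
    intro q
    simp only [act, iact, inv_smul_smul]
    rw [ih]

theorem act_length (v : List X) : ∀ q : List X → A, (act v q).length = v.length := by
  induction v with
  | nil => intro q; rfl
  | cons x w ih => intro q; simp only [act, List.length_cons, ih]

instance : Mul (Por A X) := ⟨fun g h => ⟨fun v => g.p (act v h.p) * h.p v⟩⟩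
instance : One (Por A X) := ⟨⟨fun _ => 1⟩⟩
instance : Inv (Por A X) := ⟨fun g => ⟨fun v => (g.p (iact v g.p))⁻¹⟩⟩

theorem mul_p (g h : Por A X) (v : List X) : (g * h).p v = g.p (act v h.p) * h.p v := rfl
theorem one_p (v : List X) : (1 : Por A X).p v = 1 := rfl
theorem inv_p (g : Por A X) (v : List X) : (g⁻¹).p v = (g.p (iact v g.p))⁻¹ := rfl

theorem act_one (v : List X) : act v (1 : Por A X).p = v := by
  induction v with
  | nil => rfl
  | cons x w ih =>
    simp only [act, one_p, one_smul]
    exact congrArg _ ih

theorem act_mul (v : List X) : ∀ g h : Por A X, act v (g * h).p = act (act v h.p) g.p := by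
  induction v with
  | nil => intro g h; rfl
  | cons x w ih =>
    intro g h
    simp only [act, mul_p, mul_smul]
    congr 1
    have := ih ⟨fun v => g.p ((h.p [] • x) :: v)⟩ ⟨fun v => h.p (x :: v)⟩
    simp only [mul_p] at this
    exact this

instance : Group (Por A X) :=
  Group.ofLeftAxioms
    (by
      intro a b c
      ext v
      simp only [mul_p, act_mul, mul_assoc])
    (by
      intro a
      ext v
      simp only [mul_p, one_p, one_mul])
    (by
      intro a
      ext v
      simp only [mul_p, inv_p, one_p, iact_act, inv_mul_cancel])

instance : MulAction (Por A X) (List X) where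
  smul g v := act v g.p
  one_smul v := act_one v
  mul_smul g h v := act_mul v g h

theorem smul_def' (g : Por A X) (v : List X) : g • v = act v g.p := rfl

theorem smul_length (g : Por A X) (v : List X) : (g • v).length = v.length := act_length v g.p

/-- the label at the root -/
def rt (g : Por A X) : A := g.p []

/-- the section at a letter -/
def sec (g : Por A X) (x : X) : Por A X := ⟨fun v => g.p (x :: v)⟩

theorem ext_sec {g h : Por A X} (h0 : rt g = rt h) (h1 : ∀ x, sec g x = sec h x) : g = h := by
  ext v
  cases v with
  | nil => exact h0
  | cons x w => exact congrArg (fun k : Por A X => k.p w) (h1 x)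

@[simp] theorem rt_one : rt (1 : Por A X) = 1 := rfl
@[simp] theorem rt_mul (g h : Por A X) : rt (g * h) = rt g * rt h := rfl
@[simp] theorem rt_inv (g : Por A X) : rt g⁻¹ = (rt g)⁻¹ := rfl

@[simp] theorem sec_one (x : X) : sec (1 : Por A X) x = 1 := rfl
@[simp] theorem sec_mul (g h : Por A X) (x : X) :
    sec (g * h) x = sec g (rt h • x) * sec h x := rfl

theorem sec_inv (g : Por A X) (x : X) : sec g⁻¹ x = (sec g ((rt g)⁻¹ • x))⁻¹ := by
  have h : sec (g * g⁻¹) x = 1 := by rw [mul_inv_cancel]; rfl
  rw [sec_mul, rt_inv] at h
  exact (inv_eq_of_mul_eq_one_right h).symm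

@[simp] theorem smul_nil (g : Por A X) : g • ([] : List X) = [] := rfl
@[simp] theorem smul_cons (g : Por A X) (x : X) (w : List X) :
    g • (x :: w) = (rt g • x) :: (sec g x • w) := rfl

/-- rooted portraits -/
def rho : A →* Por A X where
  toFun a := ⟨fun v => match v with
    | [] => a
    | _ :: _ => 1⟩
  map_one' := by
    ext v
    cases v <;> rfl
  map_mul' a b := by
    apply ext_sec
    · rfl
    · intro x
      rw [sec_mul]
      ext v
      change (1 : A) = 1 * 1
      simp

@[simp] theorem rt_rho (a : A) : rt (rho a : Por A X) = a := rfl
@[simp] theorem sec_rho (a : A) (x : X) : sec (rho a : Por A X) x = 1 := rfl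

variable [DecidableEq X]

/-- the portrait with trivial root label, section `g` at `x` and trivial sections elsewhere -/
def inj (x : X) : Por A X →* Por A X where
  toFun g := ⟨fun v => match v with
    | [] => 1
    | y :: w => if y = x then g.p w else 1⟩
  map_one' := by
    ext v
    cases v with
    | nil => rfl
    | cons y w =>
      change (if y = x then (1 : A) else 1) = 1
      simp
  map_mul' g h := by
    apply ext_sec
    · change (1 : A) = 1 * 1
      simp
    · intro y
      rw [sec_mul]
      ext v
      change (if y = x then (g * h).p v else 1) =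
        (if (1 : A) • y = x then g.p _ else 1) * (if y = x then h.p v else 1)
      by_cases hy : y = x
      · subst hy
        simp only [one_smul, if_true]
        change g.p (act v h.p) * h.p v = g.p (act v (fun w => if y = y then h.p w else 1)) * h.p v
        simp
      · simp [hy]

@[simp] theorem rt_inj (x : X) (g : Por A X) : rt (inj x g) = 1 := rfl
@[simp] theorem sec_inj_self (x : X) (g : Por A X) : sec (inj x g) x = g := by
  ext v
  change (if x = x then g.p v else 1) = _
  simp
theorem sec_inj_ne {x y : X} (h : y ≠ x) (g : Por A X) : sec (inj x g) y = 1 := by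
  ext v
  change (if y = x then g.p v else 1) = _
  simp [h, one_p]

theorem sec_inj (x y : X) (g : Por A X) : sec (inj x g) y = if y = x then g else 1 := by
  by_cases h : y = x
  · subst h; simp
  · rw [sec_inj_ne h, if_neg h]

theorem inj_injective (x : X) : Function.Injective (inj x : Por A X →* Por A X) := by
  intro g h e
  have := congrArg (fun k => sec k x) e
  simpa using this

/-- the portrait placed at a word -/
def injL : List X → (Por A X →* Por A X)
  | [] => MonoidHom.id _
  | x :: w => (inj x).comp (injL w)

@[simp] theorem injL_nil (g : Por A X) : injL [] g = g := rfl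
@[simp] theorem injL_cons (x : X) (w : List X) (g : Por A X) :
    injL (x :: w) g = inj x (injL w g) := rfl

/-- section at a word -/
def secL : Por A X → List X → Por A X
  | g, [] => g
  | g, x :: w => secL (sec g x) w

theorem rho_conj_inj (a : A) (x : X) (g : Por A X) :
    rho a * inj x g * (rho a)⁻¹ = inj (a • x) g := by
  rw [mul_inv_eq_iff_eq_mul]
  apply ext_sec
  · simp
  · intro y
    simp only [sec_mul, sec_rho, one_mul, rt_rho, mul_one, sec_inj]
    by_cases h : y = x
    · simp [h]
    · have h' : a • y ≠ a • x := fun e => h (MulAction.injective a e)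
      simp [h, h']

/-- conjugating a portrait placed at a word -/
theorem conj_injL (v : List X) : ∀ (g h : Por A X),
    g * injL v h * g⁻¹ = injL (g • v) (secL g v * h * (secL g v)⁻¹) := by
  induction v with
  | nil => intro g h; rfl
  | cons x w ih =>
    intro g h
    rw [mul_inv_eq_iff_eq_mul]
    simp only [injL_cons, smul_cons, secL]
    rw [← ih (sec g x) h]
    apply ext_sec
    · simp
    · intro y
      simp only [sec_mul, rt_inj, one_smul, sec_inj]
      by_cases hy : y = x
      · subst hy
        simp
      · have h' : rt g • y ≠ rt g • x := fun e => hy (MulAction.injective _ e)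
        simp [hy, h']

theorem inj_commute {x y : X} (h : x ≠ y) (g k : Por A X) : Commute (inj x g) (inj y k) := by
  apply ext_sec
  · simp
  · intro z
    simp only [sec_mul, rt_inj, one_smul, sec_inj]
    by_cases h1 : z = x
    · subst h1
      simp [h]
    · simp [h1]

theorem injL_commute (v : List X) : ∀ (w : List X), v.length = w.length → v ≠ w →
    ∀ g k : Por A X, Commute (injL v g) (injL w k) := by
  induction v with
  | nil =>
    intro w hl hne
    cases w with
    | nil => exact absurd rfl hne
    | cons => simp at hl
  | cons x v ih =>
    intro w hl hne g k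
    cases w with
    | nil => simp at hl
    | cons y w =>
      simp only [injL_cons]
      by_cases hxy : x = y
      · subst hxy
        have hne' : v ≠ w := fun e => hne (by rw [e])
        have hl' : v.length = w.length := by simpa using hl
        exact (ih w hl' hne' g k).map (inj x)
      · exact inj_commute hxy _ _

section Stab

/-- level stabilisers -/
def St (n : ℕ) : Subgroup (Por A X) where
  carrier := {g | ∀ v : List X, v.length = n → g • v = v}
  one_mem' := fun v _ => one_smul _ v
  mul_mem' := by
    intro a b ha hb v hv
    rw [mul_smul, hb v hv, ha v hv]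
  inv_mem' := by
    intro a ha v hv
    rw [inv_smul_eq_iff, ha v hv]

theorem mem_St {n : ℕ} {g : Por A X} : g ∈ (St n : Subgroup (Por A X)) ↔
    ∀ v : List X, v.length = n → g • v = v := Iff.rfl

theorem St_normal (n : ℕ) : (St n : Subgroup (Por A X)).Normal := by
  refine ⟨fun g hg h v hv => ?_⟩
  rw [mul_smul, mul_smul, hg _ (by rw [smul_length]; exact hv), smul_inv_smul]

theorem St_finiteIndex [Finite X] (n : ℕ) : (St n : Subgroup (Por A X)).FiniteIndex := by
  classical
  haveI := Fintype.ofFinite X
  let f : Por A X → (List.Vector X n → List.Vector X n) :=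
    fun g v => ⟨g • v.1, by rw [smul_length]; exact v.2⟩
  have hf : ∀ g h : Por A X, f g = f h → g⁻¹ * h ∈ (St n : Subgroup (Por A X)) := by
    intro g h e v hv
    have h1 := congrArg Subtype.val (congrFun e ⟨v, hv⟩)
    change g • v = h • v at h1
    rw [mul_smul, ← h1, inv_smul_smul]
  have hfin : Finite (Por A X ⧸ (St n : Subgroup (Por A X))) := by
    let q : Por A X ⧸ (St n : Subgroup (Por A X)) → (List.Vector X n → List.Vector X n) :=
      fun c => f c.out
    apply Finite.of_injective q
    intro c c' e
    have := hf _ _ e
    rw [← QuotientGroup.eq, QuotientGroup.out_eq', QuotientGroup.out_eq'] at this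
    exact this
  exact Subgroup.finiteIndex_of_finite_quotient

theorem mem_St_succ [FaithfulSMul A X] [Nonempty X] {n : ℕ} {g : Por A X} :
    g ∈ (St (n + 1) : Subgroup (Por A X)) ↔ rt g = 1 ∧ ∀ x, sec g x ∈ (St n : Subgroup (Por A X)) := by
  constructor
  · intro h
    constructor
    · apply FaithfulSMul.eq_of_smul_eq_smul (α := X)
      intro x
      obtain ⟨w, hw⟩ : ∃ w : List X, w.length = n := ⟨List.replicate n x, by simp⟩
      have := h (x :: w) (by simp [hw])
      rw [smul_cons] at this
      rw [(List.cons.inj this).1, one_smul]
    · intro x w hw
      have := h (x :: w) (by simp [hw])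
      rw [smul_cons] at this
      exact (List.cons.inj this).2
  · rintro ⟨h0, h1⟩ v hv
    cases v with
    | nil => rfl
    | cons x w =>
      rw [smul_cons, h0, one_smul, h1 x w (by simpa using hv)]

theorem exists_moved [FaithfulSMul A X] {g : Por A X} (hg : g ≠ 1) : ∃ v : List X, g • v ≠ v := by
  by_contra hcon
  push Not at hcon
  apply hg
  have key : ∀ (w : List X) (k : Por A X), (∀ v : List X, k • v = v) → k.p w = 1 := by
    intro w
    induction w with
    | nil =>
      intro k hk
      apply FaithfulSMul.eq_of_smul_eq_smul (α := X)
      intro x
      have := hk [x]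
      rw [smul_cons] at this
      rw [one_smul]
      exact (List.cons.inj this).1
    | cons x w ih =>
      intro k hk
      exact ih (sec k x) (fun v => by
        have := hk (x :: v)
        rw [smul_cons] at this
        exact (List.cons.inj this).2)
  ext w
  exact key w g hcon

end Stab

end Por

end Pool.Agent.Y42.FA
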