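import Mathlib

set_option autoImplicit false

/-! Metric facts on trees, and fixed vertices of groups acting on trees. -/

namespace Pool.Agent.Y42.FA

open SimpleGraph

section Geo

variable {V : Type*} {T : SimpleGraph V}

theorem exists_toward (hT : T.IsTree) {x y : V} (h : x ≠ y) :
    ∃ z, T.Adj x z ∧ T.dist y z + 1 = T.dist y x := by
  obtain ⟨p, hp⟩ := hT.connected.exists_walk_length_eq_dist x y
  cases p with
  | nil => exact absurd rfl h
  | @cons _ z _ hadj q =>
    refine ⟨z, hadj, ?_⟩
    have h1 : T.dist z y ≤ q.length := dist_le q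
    have h2 : T.dist x y ≤ T.dist z y + 1 := by
      have := hT.connected.dist_triangle (u := x) (v := z) (w := y)
      have h3 : T.dist x z = 1 := (dist_eq_one_iff_adj).2 hadj
      omega
    rw [Walk.length_cons] at hp
    rw [T.dist_comm (u := y) (v := z), T.dist_comm (u := y) (v := x)]
    omega

theorem toward_unique (hT : T.IsTree) {o x z z' : V} (h1 : T.Adj x z) (h2 : T.Adj x z')
    (d1 : T.dist o z + 1 = T.dist o x) (d2 : T.dist o z' + 1 = T.dist o x) : z = z' := by
  obtain ⟨p, hp⟩ := hT.connected.exists_walk_length_eq_dist o z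
  obtain ⟨p', hp'⟩ := hT.connected.exists_walk_length_eq_dist o z'
  have e1 : (p.concat h1.symm).IsPath := by
    apply Walk.isPath_of_length_eq_dist
    rw [Walk.length_concat]; omega
  have e2 : (p'.concat h2.symm).IsPath := by
    apply Walk.isPath_of_length_eq_dist
    rw [Walk.length_concat]; omega
  have := (hT.existsUnique_path o x).unique e1 e2
  have h3 : (p.concat h1.symm).penultimate = (p'.concat h2.symm).penultimate := by rw [this]
  simpa using h3

theorem noback (hT : T.IsTree) {o v' : V} :
    ∀ (n : ℕ) (w z : V), T.dist v' z = n → T.Adj w z → T.dist v' w = n + 1 →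
      T.dist o z = T.dist o w + 1 → T.dist o v' = T.dist o w + (n + 1) := by
  intro n
  induction n with
  | zero =>
    intro w z h1 h2 h3 h4
    have : v' = z := hT.connected.dist_eq_zero_iff.1 h1
    subst this
    omega
  | succ n ih =>
    intro w z h1 h2 h3 h4
    have hne : z ≠ v' := by
      rintro rfl
      simp at h1
    obtain ⟨z2, hz2, hd⟩ := exists_toward hT hne
    have hz2' : T.dist v' z2 = n := by omega
    have hcase := hT.dist_eq_dist_add_one_of_adj o hz2
    have hup : T.dist o z2 = T.dist o z + 1 := by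
      rcases hcase with hc | hc
      · exfalso
        have : w = z2 := toward_unique hT (o := o) h2.symm hz2 (by omega) (by omega)
        subst this
        omega
      · omega
    have := ih z z2 hz2' hz2 (by omega) hup
    omega

theorem noback' (hT : T.IsTree) {o v' w z : V} (h2 : T.Adj w z)
    (h3 : T.dist v' z + 1 = T.dist v' w)
    (h4 : T.dist o z = T.dist o w + 1) : T.dist o v' = T.dist o w + T.dist v' w := by
  have := noback hT (o := o) (v' := v') (T.dist v' z) w z rfl h2 (by omega) h4
  omega

/-- a set of vertices closed under moving towards its elements -/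
def Conv (T : SimpleGraph V) (F : Set V) : Prop :=
  ∀ x ∈ F, ∀ y ∈ F, ∀ z, T.Adj x z → T.dist y z + 1 = T.dist y x → z ∈ F

theorem conv_inter {F F' : Set V} (h : Conv T F) (h' : Conv T F') : Conv T (F ∩ F') :=
  fun x hx y hy z hz hd => ⟨h x hx.1 y hy.1 z hz hd, h' x hx.2 y hy.2 z hz hd⟩

end Geo

section Act

variable {V : Type*} {T : SimpleGraph V} {P : Type*} [Group P] [MulAction P V]

theorem dist_smul_le (hT : T.Connected) (hP : ∀ g : P, ∀ x y : V, T.Adj x y → T.Adj (g • x) (g • y))
    (g : P) (x y : V) : T.dist (g • x) (g • y) ≤ T.dist x y := by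
  obtain ⟨p, hp⟩ := hT.exists_walk_length_eq_dist x y
  let f : T →g T := ⟨fun v => g • v, fun {a b} h => hP g a b h⟩
  have := dist_le (p.map f)
  rw [Walk.length_map] at this
  rw [← hp]
  exact this

theorem dist_smul (hT : T.Connected) (hP : ∀ g : P, ∀ x y : V, T.Adj x y → T.Adj (g • x) (g • y))
    (g : P) (x y : V) : T.dist (g • x) (g • y) = T.dist x y := by
  apply le_antisymm (dist_smul_le hT hP g x y)
  have := dist_smul_le hT hP g⁻¹ (g • x) (g • y)
  simpa using this

/-- the set of vertices fixed by a subgroup -/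
def Fx (P V : Type*) [Group P] [MulAction P V] (K : Subgroup P) : Set V :=
  {v | ∀ g ∈ K, g • v = v}

theorem conv_fx (hT : T.IsTree) (hP : ∀ g : P, ∀ x y : V, T.Adj x y → T.Adj (g • x) (g • y))
    (K : Subgroup P) : Conv T (Fx P V K) := by
  intro x hx y hy z hz hd g hg
  have h1 : T.Adj x (g • z) := by
    have := hP g x z hz
    rwa [hx g hg] at this
  have h2 : T.dist y (g • z) + 1 = T.dist y x := by
    have := dist_smul hT.connected hP g y z
    rw [hy g hg] at this
    omega
  exact toward_unique hT h1 hz h2 hd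

theorem nonempty_min {α : Type*} (S : Set α) (hS : S.Nonempty) (f : α → ℕ) :
    ∃ a ∈ S, ∀ b ∈ S, f a ≤ f b := by
  classical
  obtain ⟨a0, ha0⟩ := hS
  have hne : ∃ n, ∃ a ∈ S, f a = n := ⟨f a0, a0, ha0, rfl⟩
  obtain ⟨a, ha, hfa⟩ := Nat.find_spec hne
  refine ⟨a, ha, fun b hb => ?_⟩
  rw [hfa]
  exact Nat.find_min' hne ⟨b, hb, rfl⟩

/-- a subgroup fixing a vertex and preserving a nonempty convex set fixes a vertex of it -/
theorem fix_in_conv (hT : T.IsTree) (hP : ∀ g : P, ∀ x y : V, T.Adj x y → T.Adj (g • x) (g • y))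
    (K : Subgroup P) {v : V} (hv : v ∈ Fx P V K) {F : Set V} (hF : Conv T F) (hne : F.Nonempty)
    (hinv : ∀ g ∈ K, ∀ x ∈ F, g • x ∈ F) : (F ∩ Fx P V K).Nonempty := by
  obtain ⟨x, hx, hmin⟩ := nonempty_min F hne (fun x => T.dist v x)
  refine ⟨x, hx, fun g hg => ?_⟩
  by_contra hne'
  have hne' : x ≠ g • x := fun h => hne' h.symm
  have hgx : g • x ∈ F := hinv g hg x hx
  obtain ⟨z, hz, hd⟩ := exists_toward hT hne'
  have hzF : z ∈ F := hF x hx _ hgx z hz hd
  have h1 : T.dist v x ≤ T.dist v z := hmin z hzF
  have hcase := hT.dist_eq_dist_add_one_of_adj v hz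
  have hup : T.dist v z = T.dist v x + 1 := by
    rcases hcase with hc | hc
    · omega
    · omega
  have h2 := noback' hT (o := v) hz hd hup
  have h3 : T.dist v (g • x) = T.dist v x := by
    have := dist_smul hT.connected hP g v x
    rwa [hv g hg] at this
  omega

/-- a subgroup preserving two disjoint nonempty convex sets fixes a vertex -/
theorem fix_of_disjoint (hT : T.IsTree)
    (hP : ∀ g : P, ∀ x y : V, T.Adj x y → T.Adj (g • x) (g • y))
    (K : Subgroup P) {F F' : Set V} (hF : Conv T F) (hF' : Conv T F') (hne : F.Nonempty)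
    (hne' : F'.Nonempty) (hinv : ∀ g ∈ K, ∀ x ∈ F, g • x ∈ F)
    (hinv' : ∀ g ∈ K, ∀ x ∈ F', g • x ∈ F') (hdis : ¬ (F ∩ F').Nonempty) :
    (Fx P V K).Nonempty := by
  obtain ⟨⟨x, y⟩, ⟨hx, hy⟩, hmin⟩ := nonempty_min (F ×ˢ F') (hne.prod hne')
    (fun q => T.dist q.1 q.2)
  simp only at hx hy hmin
  have hxy : x ≠ y := by
    rintro rfl
    exact hdis ⟨x, hx, hy⟩
  refine ⟨x, fun g hg => ?_⟩
  by_contra hcon
  set x' := g • x with hx'
  set y' := g • y with hy'
  have hx'F : x' ∈ F := hinv g hg x hx
  have hy'F : y' ∈ F' := hinv' g hg y hy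
  have hdd : T.dist x' y' = T.dist x y := dist_smul hT.connected hP g x y
  have hpos : 0 < T.dist x y := hT.connected.pos_dist_of_ne hxy
  -- first: dist y x' = dist x y + dist x x'
  have hne1 : x ≠ x' := fun h => hcon h.symm
  obtain ⟨z, hz, hd⟩ := exists_toward hT hne1
  have hzF : z ∈ F := hF x hx _ hx'F z hz hd
  have h1 : T.dist y z = T.dist y x + 1 := by
    have hm := hmin (z, y) ⟨hzF, hy⟩
    simp only at hm
    have hc := hT.dist_eq_dist_add_one_of_adj y hz
    rw [T.dist_comm (u := z) (v := y), T.dist_comm (u := x) (v := y)] at hm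
    omega
  have e1 : T.dist y x' = T.dist y x + T.dist x' x := noback' hT hz hd h1
  -- y ≠ y'
  have hne2 : y' ≠ y := by
    intro h
    rw [h] at hdd
    have h5 : T.dist x' y = T.dist y x' := T.dist_comm
    have h6 : T.dist x y = T.dist y x := T.dist_comm
    have h7 : 0 < T.dist x' x := hT.connected.pos_dist_of_ne (Ne.symm hne1)
    omega
  obtain ⟨t, ht, hdt⟩ := exists_toward hT hne2
  have htF : t ∈ F' := hF' y' hy'F _ hy t ht hdt
  have h2 : T.dist x' t = T.dist x' y' + 1 := by
    have hm := hmin (x', t) ⟨hx'F, htF⟩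
    simp only at hm
    have hc := hT.dist_eq_dist_add_one_of_adj x' ht
    omega
  have e2 : T.dist x' y = T.dist x' y' + T.dist y y' := noback' hT ht hdt h2
  -- unique neighbour of y towards x'
  obtain ⟨q1, hq1, hd1⟩ := exists_toward hT (Ne.symm hxy)
  obtain ⟨q2, hq2, hd2⟩ := exists_toward hT (Ne.symm hne2)
  have hq2F : q2 ∈ F' := hF' y hy _ hy'F q2 hq2 hd2
  have a1 : T.dist x' q1 + 1 = T.dist x' y := by
    have t1 := hT.connected.dist_triangle (u := x') (v := x) (w := q1)
    have t2 := hT.connected.dist_triangle (u := x') (v := q1) (w := y)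
    have t3 : T.dist q1 y = 1 := (dist_eq_one_iff_adj).2 hq1.symm
    have h5 : T.dist x' y = T.dist y x' := T.dist_comm
    have h6 : T.dist x y = T.dist y x := T.dist_comm
    omega
  have a2 : T.dist x' q2 + 1 = T.dist x' y := by
    have t1 := hT.connected.dist_triangle (u := x') (v := y') (w := q2)
    have t2 := hT.connected.dist_triangle (u := x') (v := q2) (w := y)
    have t3 : T.dist q2 y = 1 := (dist_eq_one_iff_adj).2 hq2.symm
    have h6 : T.dist y y' = T.dist y' y := T.dist_comm
    omega
  have hq : q1 = q2 := toward_unique hT hq1 hq2 a1 a2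
  have hm := hmin (x, q2) ⟨hx, hq2F⟩
  simp only at hm
  rw [← hq] at hm
  omega

/-- a finite group acting without inversions on a tree fixes a vertex -/
theorem finite_fix [Finite P] (hT : T.IsTree)
    (hP : ∀ g : P, ∀ x y : V, T.Adj x y → T.Adj (g • x) (g • y))
    (hinv : ∀ g : P, ∀ x y : V, T.Adj x y → ¬ (g • x = y ∧ g • y = x)) :
    ∃ v : V, ∀ g : P, g • v = v := by
  classical
  have := Fintype.ofFinite P
  obtain ⟨v0⟩ := hT.connected.nonempty
  let f : V → ℕ := fun v => Finset.univ.sup (fun a : P => T.dist v (a • v0))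
  have hfP : ∀ (g : P) (v : V), f (g • v) = f v := by
    intro g v
    apply le_antisymm
    · refine Finset.sup_le fun a _ => ?_
      have : T.dist (g • v) (a • v0) = T.dist v ((g⁻¹ * a) • v0) := by
        have := dist_smul hT.connected hP g v ((g⁻¹ * a) • v0)
        rw [← this, smul_smul, mul_inv_cancel_left]
      rw [this]
      exact Finset.le_sup (f := fun a : P => T.dist v (a • v0)) (Finset.mem_univ _)
    · refine Finset.sup_le fun a _ => ?_
      have : T.dist v (a • v0) = T.dist (g • v) ((g * a) • v0) := by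
        rw [mul_smul, dist_smul hT.connected hP]
      rw [this]
      exact Finset.le_sup (f := fun a : P => T.dist (g • v) (a • v0)) (Finset.mem_univ _)
  obtain ⟨v, -, hmin⟩ := nonempty_min (Set.univ : Set V) ⟨v0, trivial⟩ f
  refine ⟨v, fun g => ?_⟩
  by_contra hcon
  have key : ∀ v' : V, f v' = f v → v' ≠ v → T.Adj v v' := by
    intro v' hf hne
    obtain ⟨z, hz, hd⟩ := exists_toward hT (Ne.symm hne)
    by_cases hzv : z = v'
    · rw [← hzv]; exact hz
    exfalso
    obtain ⟨z2, hz2, hd2⟩ := exists_toward hT hzv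
    -- f z < f v
    have hlt : f z < f v := by
      have : ∀ a : P, T.dist z (a • v0) < f v := by
        intro a
        have b1 : T.dist v (a • v0) ≤ f v :=
          Finset.le_sup (f := fun a : P => T.dist v (a • v0)) (Finset.mem_univ a)
        have b2 : T.dist v' (a • v0) ≤ f v := by
          rw [← hf]
          exact Finset.le_sup (f := fun a : P => T.dist v' (a • v0)) (Finset.mem_univ a)
        set o := a • v0
        by_contra hge
        push Not at hge
        have c1 : T.dist o z = T.dist z o := T.dist_comm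
        have c2 : T.dist o v = T.dist v o := T.dist_comm
        have c3 : T.dist o v' = T.dist v' o := T.dist_comm
        have hc := hT.dist_eq_dist_add_one_of_adj o hz
        have hz1 : T.dist o v + 1 = T.dist o z := by omega
        have hc2 := hT.dist_eq_dist_add_one_of_adj o hz2
        have hup : T.dist o z2 = T.dist o z + 1 := by
          rcases hc2 with h | h
          · exfalso
            have : v = z2 := toward_unique hT (o := o) hz.symm hz2 hz1 (by omega)
            subst this
            omega
          · omega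
        have := noback' hT (o := o) hz2 hd2 hup
        have hpos : 0 < T.dist v' z := hT.connected.pos_dist_of_ne (Ne.symm hzv)
        omega
      have hne : (Finset.univ : Finset P).Nonempty := ⟨1, Finset.mem_univ _⟩
      exact (Finset.sup_lt_iff (lt_of_le_of_lt (Nat.zero_le _) (this 1))).2 (fun a _ => this a)
    exact absurd (hmin z trivial) (not_le.2 hlt)
  have hadj : T.Adj v (g • v) := key _ (hfP g v) hcon
  have h2 : f (g • g • v) = f v := by rw [hfP, hfP]
  by_cases h3 : g • g • v = v
  · exact hinv g v (g • v) hadj ⟨rfl, h3⟩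
  · have hadj2 : T.Adj v (g • g • v) := key _ h2 h3
    have hadj3 : T.Adj (g • v) (g • g • v) := hP g _ _ hadj
    have e1 := (dist_eq_one_iff_adj).2 hadj
    have e2 := (dist_eq_one_iff_adj).2 hadj2
    exact hT.dist_ne_of_adj v hadj3 (by rw [e1, e2])

end Act

end Pool.Agent.Y42.FA
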