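import Mathlib

set_option autoImplicit false

/-! The graph of a parent function raising a level function is a tree. -/

namespace Pool.Agent.Y42.FA

open SimpleGraph

variable {V : Type*}

/-- the graph joining every vertex to its parent -/
def upGraph (up : V → V) : SimpleGraph V := SimpleGraph.fromRel (fun a b => up a = b)

theorem upGraph_adj {up : V → V} {lvl : V → ℕ} (hl : ∀ v, lvl (up v) = lvl v + 1) (a b : V) :
    (upGraph up).Adj a b ↔ (up a = b ∨ up b = a) := by
  unfold upGraph
  rw [SimpleGraph.fromRel_adj]
  constructor
  · exact fun h => h.2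
  · intro h
    refine ⟨?_, h⟩
    rintro rfl
    have := hl a
    rcases h with h | h <;> (rw [h] at this; omega)

theorem upGraph_isTree {up : V → V} {lvl : V → ℕ} (hl : ∀ v, lvl (up v) = lvl v + 1)
    (v0 : V) (hc : ∀ v w, ∃ m n, up^[m] v = up^[n] w) : (upGraph up).IsTree := by
  classical
  have hreach : ∀ m v, (upGraph up).Reachable v (up^[m] v) := by
    intro m
    induction m with
    | zero => intro v; exact Reachable.refl _
    | succ m ih =>
      intro v
      rw [Function.iterate_succ_apply']
      refine (ih v).trans (SimpleGraph.Adj.reachable ?_)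
      rw [upGraph_adj hl]
      left; rfl
  refine ⟨?_, ?_⟩
  · haveI : Nonempty V := ⟨v0⟩
    refine ⟨?_⟩
    intro v w
    obtain ⟨m, n, h⟩ := hc v w
    exact (hreach m v).trans (h ▸ (hreach n w).symm)
  · intro v c hcyc
    -- a vertex of minimal level
    have hex : ∃ n, ∃ a ∈ c.support, lvl a = n := ⟨lvl v, v, c.start_mem_support, rfl⟩
    obtain ⟨u, hu, hlu⟩ := Nat.find_spec hex
    have hmin : ∀ a ∈ c.support, lvl u ≤ lvl a := by
      intro a ha
      rw [hlu]
      exact Nat.find_min' hex ⟨a, ha, rfl⟩
    set c' := c.rotate u hu with hc'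
    have hcyc' : c'.IsCycle := (Walk.isCycle_rotate hu).2 hcyc
    have hsup : ∀ a ∈ c'.support, lvl u ≤ lvl a := by
      intro a ha
      exact hmin a ((Walk.mem_support_rotate_iff c u hu).1 ha)
    have hnil : ¬ c'.Nil := hcyc'.not_nil
    have h1 : (upGraph up).Adj u c'.snd := Walk.adj_snd hnil
    have h2 : (upGraph up).Adj c'.penultimate u := Walk.adj_penultimate hnil
    have m1 : c'.snd ∈ c'.support := Walk.getVert_mem_support _ _
    have m2 : c'.penultimate ∈ c'.support := Walk.getVert_mem_support _ _
    have l1 := hsup _ m1
    have l2 := hsup _ m2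
    have e1 : c'.snd = up u := by
      rcases (upGraph_adj hl _ _).1 h1 with h | h
      · exact h.symm
      · have := hl c'.snd
        rw [h] at this
        omega
    have e2 : c'.penultimate = up u := by
      rcases (upGraph_adj hl _ _).1 h2 with h | h
      · have := hl c'.penultimate
        rw [h] at this
        omega
      · exact h.symm
    exact hcyc'.snd_ne_penultimate (e1.trans e2.symm)

end Pool.Agent.Y42.FA
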